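import Mathlib

set_option autoImplicit false

namespace Pool.Agent.H.MP_05142a_co

open Relation Filter Topology

/-- `(k,q)`-colouring -/
def IsCol {V : Type} (G : SimpleGraph V) (k q : ℕ) (f : V → Fin k) : Prop :=
  ∀ u v, G.Adj u v → (q : ℤ) ≤ |((f u : ℕ) : ℤ) - (f v : ℕ)| ∧ |((f u : ℕ) : ℤ) - (f v : ℕ)| ≤ (k : ℤ) - q

/-- one recolouring step -/
def Step {V : Type} (G : SimpleGraph V) (k q : ℕ) (f g : V → Fin k) : Prop :=
  IsCol G k q f ∧ IsCol G k q g ∧ ∃ v, ∀ w, w ≠ v → f w = g w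

/-- `(k,q)`-mixing -/
def Mixing {V : Type} (G : SimpleGraph V) (k q : ℕ) : Prop :=
  ∀ f g : V → Fin k, IsCol G k q f → IsCol G k q g → ReflTransGen (Step G k q) f g

variable {V : Type}

def SolR (o : V → V → Prop) (e : ℝ) (y : V → ℝ) : Prop :=
  ∀ u w, o u w → e ≤ y w - y u ∧ y w - y u ≤ 1 - e

def SolZ (o : V → V → Prop) (k q : ℕ) (x : V → ℤ) : Prop :=
  ∀ u w, o u w → (q : ℤ) ≤ x w - x u ∧ x w - x u ≤ (k : ℤ) - q

def Tr (s : (V → V → Prop) × (V → V → Prop) × (V → Prop)) (e : ℝ) (y z : V → ℝ) : Prop :=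
  SolR s.1 e y ∧ SolR s.2.1 e z ∧ ∀ u, s.2.2 u → y u = z u

lemma SolR.mono {o : V → V → Prop} {e e' : ℝ} {y : V → ℝ} (h : SolR o e y) (he : e' ≤ e) : SolR o e' y :=
  fun u w a => ⟨by linarith [(h u w a).1], by linarith [(h u w a).2]⟩

lemma perturb [Finite V] {e : ℝ} (he : Irrational e) (s : (V → V → Prop) × (V → V → Prop) × (V → Prop))
    {y z : V → ℝ} (h : Tr s e y z) : ∃ e' > e, ∃ y' z', Tr s e' y' z' := by
  have h1 : e ∉ Submodule.span ℚ ({1} : Set ℝ) := by
    rw [Submodule.mem_span_singleton]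
    rintro ⟨a, ha⟩
    exact he ⟨a, by simpa [Rat.smul_def] using ha⟩
  obtain ⟨f, f1, f2⟩ := Submodule.exists_dual_map_eq_bot_of_notMem h1 inferInstance
  have f3 : f 1 = 0 := by
    have : f 1 ∈ (Submodule.span ℚ ({1} : Set ℝ)).map f :=
      Submodule.mem_map_of_mem (Submodule.mem_span_singleton_self _)
    simpa [f2] using this
  let φ : ℝ → ℝ := fun t => (f t : ℝ) / f e
  have f1' : (f e : ℝ) ≠ 0 := by exact_mod_cast f1
  have p0 : φ 0 = 0 := by simp [φ]
  have p1 : φ 1 = 0 := by simp [φ, f3]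
  have pe : φ e = 1 := div_self f1'
  have ps : ∀ a b, φ (a - b) = φ a - φ b := fun a b => by simp [φ, sub_div]
  have key : ∀ t : ℝ, 0 ≤ t → ∀ᶠ d in 𝓝[>] (0 : ℝ), 0 ≤ t + d * φ t := by
    intro t ht
    rcases ht.eq_or_lt with rfl | ht
    · simp [p0]
    · have : Tendsto (fun d : ℝ => t + d * φ t) (𝓝 0) (𝓝 (t + 0 * φ t)) :=
        (by fun_prop : Continuous fun d : ℝ => t + d * φ t).tendsto 0
      refine (this.eventually (lt_mem_nhds (show (0 : ℝ) < t + 0 * φ t by simpa))).filter_mono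
        nhdsWithin_le_nhds |>.mono fun d hd => hd.le
  have k2 : ∀ (o : V → V → Prop) (y : V → ℝ), SolR o e y →
      ∀ᶠ d in 𝓝[>] (0 : ℝ), SolR o (e + d) fun u => y u + d * φ (y u) := by
    intro o y hy
    unfold SolR
    simp only [eventually_all]
    intro u w a
    filter_upwards [key _ (sub_nonneg.2 (hy u w a).1), key _ (sub_nonneg.2 (hy u w a).2)] with d b c
    simp only [ps, pe, p1] at b c
    constructor <;> linarith
  obtain ⟨d, ⟨a, b⟩, c⟩ := (((k2 _ _ h.1).and (k2 _ _ h.2.1)).and self_mem_nhdsWithin).exists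
  exact ⟨e + d, by simpa using c, _, _, a, b, fun u hu => by simp [h.2.2 u hu]⟩

def A (s : (V → V → Prop) × (V → V → Prop) × (V → Prop)) : Set ℝ :=
  {e | ∃ y z : V → ℝ, (∀ u, y u ∈ Set.Icc (0 : ℝ) 1) ∧ (∀ u, z u ∈ Set.Icc (0 : ℝ) 1) ∧ Tr s e y z}

lemma closedA (s : (V → V → Prop) × (V → V → Prop) × (V → Prop)) : IsClosed (A s) := by
  let I := V → Set.Icc (0 : ℝ) 1
  have h1 : IsClosed {p : (I × I) × ℝ | Tr s p.2 (fun u => p.1.1 u) fun u => p.1.2 u} := by
    unfold Tr SolR
    simp only [Set.ofPred_and, Set.ofPred_forall]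
    refine IsClosed.inter ?_ (IsClosed.inter ?_ ?_)
    · refine isClosed_iInter fun u => isClosed_iInter fun w => isClosed_iInter fun _ => IsClosed.inter ?_ ?_ <;>
        exact isClosed_le (by fun_prop) (by fun_prop)
    · refine isClosed_iInter fun u => isClosed_iInter fun w => isClosed_iInter fun _ => IsClosed.inter ?_ ?_ <;>
        exact isClosed_le (by fun_prop) (by fun_prop)
    · exact isClosed_iInter fun u => isClosed_iInter fun _ => isClosed_eq (by fun_prop) (by fun_prop)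
  have h2 := isClosedMap_snd_of_compactSpace _ h1
  have : A s = Prod.snd '' {p : (I × I) × ℝ | Tr s p.2 (fun u => p.1.1 u) fun u => p.1.2 u} := by
    ext e
    constructor
    · rintro ⟨y, z, a, b, c⟩
      exact ⟨((fun u => ⟨y u, a u⟩, fun u => ⟨z u, b u⟩), e), c, rfl⟩
    · rintro ⟨p, c, rfl⟩
      exact ⟨_, _, fun u => (p.1.1 u).2, fun u => (p.1.2 u).2, c⟩
  rwa [this]

lemma gap [Finite V] {e : ℝ} (he : Irrational e) : ∃ lo < e, ∃ hi > e,
    ∀ s : (V → V → Prop) × (V → V → Prop) × (V → Prop), ∀ a ∈ A s, lo < a → ∃ y z, Tr s hi y z := by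
  have h : ∀ s : (V → V → Prop) × (V → V → Prop) × (V → Prop),
      ∀ᶠ d in 𝓝[>] (0 : ℝ), ∀ a ∈ A s, e - d < a → ∃ y z, Tr s (e + d) y z := by
    intro s
    by_cases hs : e ∈ A s
    · obtain ⟨y, z, -, -, c⟩ := hs
      obtain ⟨e', h1, y', z', h2⟩ := perturb he s c
      filter_upwards [Ioo_mem_nhdsGT (sub_pos.2 h1)] with d hd a _ _
      exact ⟨y', z', h2.1.mono (by linarith [hd.2]), h2.2.1.mono (by linarith [hd.2]), h2.2.2⟩
    · obtain ⟨r, hr, h2⟩ := Metric.isOpen_iff.1 (closedA s).isOpen_compl e hs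
      filter_upwards [Ioo_mem_nhdsGT hr] with d hd a ha hlt
      exfalso
      obtain ⟨y, z, a1, a2, c⟩ := ha
      refine h2 (show e - d ∈ Metric.ball e r from ?_) ⟨y, z, a1, a2, c.1.mono hlt.le, c.2.1.mono hlt.le, c.2.2⟩
      rw [Metric.mem_ball, Real.dist_eq, abs_lt]
      constructor <;> linarith [hd.1, hd.2]
  obtain ⟨d, h1, h2⟩ := ((eventually_all.2 h).and self_mem_nhdsWithin).exists
  have : 0 < d := h2
  exact ⟨e - d, by linarith, e + d, by linarith, h1⟩

def ZS (o : V → V → Prop) (k q : ℕ) (a b : V → ℤ) : Prop :=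
  SolZ o k q a ∧ SolZ o k q b ∧ ∃ v, ∀ w, w ≠ v → a w = b w

lemma rsymm {α : Type} {r : α → α → Prop} (h : ∀ a b, r a b → r b a) {a b : α} (e : ReflTransGen r a b) :
    ReflTransGen r b a := by
  induction e with
  | refl => exact .refl
  | tail _ s ih => exact .head (h _ _ s) ih

lemma raise [Fintype V] {o : V → V → Prop} {k q : ℕ} {z : V → ℝ}
    (hz : ∀ u w, o u w → (q : ℝ) < z w - z u ∧ z w - z u < k - q) {b : V → ℤ} (hb : SolZ o k q b) :
    ∀ (n : ℕ) (a : V → ℤ), ∑ v, (b v - a v).toNat = n → SolZ o k q a → (∀ v, a v ≤ b v) →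
      ReflTransGen (ZS o k q) a b := by
  classical
  intro n
  induction n using Nat.strong_induction_on with
  | _ n ih =>
  intro a hn ha hab
  by_cases h1 : ∀ v, a v = b v
  · rw [funext h1]
  push Not at h1
  obtain ⟨v, hv, hm⟩ := Finset.exists_min_image (Finset.univ.filter fun v => a v ≠ b v)
    (fun v => (a v : ℝ) - z v) (by obtain ⟨v, hv⟩ := h1; exact ⟨v, by simpa⟩)
  simp only [Finset.mem_filter, Finset.mem_univ, true_and] at hv hm
  have hv' := hab v
  have s : SolZ o k q (Function.update a v (a v + 1)) := by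
    intro u w e
    have a1 := ha u w e
    have b1 := hb u w e
    have z1 := hz u w e
    by_cases hu : u = v <;> by_cases hw : w = v
    · simpa [hu, hw] using a1
    · subst hu
      simp only [Function.update_self, Function.update_of_ne hw]
      refine ⟨?_, by omega⟩
      by_contra c
      have c1 : a w = a u + q := by omega
      have := hm w (by omega)
      rw [c1] at this
      push_cast at this
      linarith [z1.1]
    · subst hw
      simp only [Function.update_self, Function.update_of_ne hu]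
      refine ⟨by omega, ?_⟩
      by_contra c
      have c1 : a u = a w - k + q := by omega
      have := hm u (by omega)
      rw [c1] at this
      push_cast at this
      linarith [z1.2]
    · simpa [hu, hw] using a1
  refine .head ⟨ha, s, v, fun w hw => by simp [hw]⟩ (ih _ ?_ _ rfl s fun w => ?_)
  · rw [← hn]
    refine Finset.sum_lt_sum (fun w _ => ?_) ⟨v, Finset.mem_univ _, ?_⟩
    · by_cases hw : w = v
      · subst hw
        simp only [Function.update_self]
        omega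
      · simp [hw]
    · simp only [Function.update_self]
      omega
  · by_cases hw : w = v
    · subst hw
      simp only [Function.update_self]
      omega
    · simpa [hw] using hab w

lemma conn [Fintype V] {o : V → V → Prop} {k q : ℕ} {z : V → ℝ}
    (hz : ∀ u w, o u w → (q : ℝ) < z w - z u ∧ z w - z u < k - q) {a b : V → ℤ} (ha : SolZ o k q a)
    (hb : SolZ o k q b) : ReflTransGen (ZS o k q) a b := by
  have hm : SolZ o k q fun v => max (a v) (b v) := by
    intro u w e
    have := ha u w e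
    have := hb u w e
    dsimp only
    omega
  exact (raise hz hm _ a rfl ha fun v => le_max_left _ _).trans
    (rsymm (fun _ _ h => ⟨h.2.1, h.1, h.2.2.imp fun _ h w hw => (h w hw).symm⟩)
      (raise hz hm _ b rfl hb fun v => le_max_right _ _))

lemma slack {o : V → V → Prop} {k q : ℕ} {e : ℝ} (he : (q : ℝ) < k * e) {y : V → ℝ} (h : SolR o e y) :
    ∀ u w, o u w → (q : ℝ) < k * y w - k * y u ∧ k * y w - k * y u < k - q := by
  intro u w a
  have := h u w a
  have hk : (0 : ℝ) ≤ k := by positivity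
  constructor <;> nlinarith [this.1, this.2]

lemma flo {o : V → V → Prop} {k q : ℕ} {z : V → ℝ}
    (hz : ∀ u w, o u w → (q : ℝ) < z w - z u ∧ z w - z u < k - q) : SolZ o k q fun u => ⌊z u⌋ := by
  intro u w a
  have := hz u w a
  have h1 : ⌊z u⌋ + q ≤ ⌊z w⌋ := by
    rw [← Int.floor_add_natCast]; exact Int.floor_mono (by linarith [this.1])
  have h2 : ⌊z w⌋ + q ≤ ⌊z u⌋ + k := by
    rw [← Int.floor_add_natCast, ← Int.floor_add_natCast]; exact Int.floor_mono (by linarith [this.2])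
  constructor <;> linarith

def red (k : ℕ) (hk : 0 < k) (h : V → ℤ) : V → Fin k :=
  fun o => ⟨(h o % k).toNat, by
    have := Int.emod_lt_of_pos (h o) (show (0 : ℤ) < k by exact_mod_cast hk)
    omega⟩

lemma red_coe {k : ℕ} (hk : 0 < k) (f : V → Fin k) : red k hk (fun u => (f u : ℕ)) = f := by
  ext o
  have := (f o).2
  have e : ((f o : ℕ) : ℤ) % k = (f o : ℕ) := Int.emod_eq_of_lt (by positivity) (by exact_mod_cast this)
  simp only [red]
  rw [e]; simp

def Or (G : SimpleGraph V) (o : V → V → Prop) : Prop := ∀ u v, G.Adj u v → o u v ∨ o v u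

lemma red_col {G : SimpleGraph V} {o : V → V → Prop} (ho : Or G o) {k q : ℕ} (hk : 0 < k) (hq : 0 < q)
    {h : V → ℤ} (a : SolZ o k q h) : IsCol G k q (red k hk h) := by
  intro u v e
  have b : (q : ℤ) ≤ |h u - h v| ∧ |h u - h v| ≤ (k : ℤ) - q := by
    rw [le_abs, abs_le]
    rcases ho u v e with c | c
    · have := a _ _ c; omega
    · have := a _ _ c; omega
  have hk' : (0 : ℤ) < k := by exact_mod_cast hk
  simp only [red]
  have u1 := Int.emod_lt_of_pos (h u) hk'
  have u2 := Int.emod_nonneg (h u) hk'.ne'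
  have v1 := Int.emod_lt_of_pos (h v) hk'
  have v2 := Int.emod_nonneg (h v) hk'.ne'
  rw [Int.toNat_of_nonneg u2, Int.toNat_of_nonneg v2]
  have u3 := Int.emod_add_mul_ediv (h u) k
  have v3 := Int.emod_add_mul_ediv (h v) k
  rw [le_abs, abs_le] at *
  obtain ⟨d, hd⟩ : ∃ d, d = h u / k - h v / k := ⟨_, rfl⟩
  have e1 : h u - h v = h u % k - h v % k + k * d := by rw [hd, mul_sub]; omega
  have : d = -1 ∨ d = 0 ∨ d = 1 := by
    have : -2 < d := by nlinarith
    have : d < 2 := by nlinarith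
    omega
  rcases this with rfl | rfl | rfl <;> omega

def ori (G : SimpleGraph V) {k : ℕ} (f : V → Fin k) : V → V → Prop := fun u w => G.Adj u w ∧ f u < f w

lemma ori_or {G : SimpleGraph V} {k q : ℕ} (hq : 0 < q) {f : V → Fin k} (h : IsCol G k q f) : Or G (ori G f) := by
  intro u v e
  have := (h u v e).1
  simp only [ori, e, e.symm, true_and, Fin.lt_def]
  rw [le_abs] at this
  omega

lemma ori_sol {G : SimpleGraph V} {k q : ℕ} {f : V → Fin k} (h : IsCol G k q f) :
    SolZ (ori G f) k q fun u => (f u : ℕ) := by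
  intro u v e
  have := h u v e.1
  have := Fin.lt_def.1 e.2
  rw [le_abs, abs_le] at *
  dsimp only
  omega

lemma toR {o : V → V → Prop} {k q : ℕ} (hk : 0 < k) {x : V → ℤ} (h : SolZ o k q x) :
    SolR o ((q : ℝ) / k) fun u => (x u : ℝ) / k := by
  intro u w a
  have hk' : (0 : ℝ) < k := by exact_mod_cast hk
  have h1 : (q : ℝ) ≤ x w - x u := by exact_mod_cast (h u w a).1
  have h2 : (x w : ℝ) - x u ≤ k - q := by exact_mod_cast (h u w a).2
  rw [← sub_div, one_sub_div hk'.ne']
  exact ⟨div_le_div_of_nonneg_right h1 hk'.le, div_le_div_of_nonneg_right h2 hk'.le⟩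

lemma memA {G : SimpleGraph V} {k q : ℕ} (hk : 0 < k) {f g : V → Fin k} (hf : IsCol G k q f)
    (hg : IsCol G k q g) (p : V → Prop) (h : ∀ u, p u → f u = g u) : (q : ℝ) / k ∈ A (ori G f, ori G g, p) := by
  have hk' : (0 : ℝ) < k := by exact_mod_cast hk
  have : ∀ (f : V → Fin k) u, (((f u : ℕ) : ℤ) : ℝ) / k ∈ Set.Icc (0 : ℝ) 1 := fun f u =>
    ⟨by positivity, (div_le_one hk').2 (by exact_mod_cast (f u).2.le)⟩
  exact ⟨_, _, this f, this g, toR hk (ori_sol hf), toR hk (ori_sol hg), fun u hu => by simp [h u hu]⟩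

lemma push {G : SimpleGraph V} {k q k' q' : ℕ} (hk : 0 < k) (hk' : 0 < k') (hq : 0 < q)
    (h : (q : ℝ) / k < q' / k') {f : V → Fin k'} (hf : IsCol G k' q' f) :
    ∃ g : V → Fin k, IsCol G k q g ∧ SolZ (ori G g) k' q' fun u => (f u : ℕ) := by
  have k0 : (0 : ℝ) < k := by exact_mod_cast hk
  have k1 : (0 : ℝ) < k' := by exact_mod_cast hk'
  have s := flo (slack (k := k) (q := q) (by rwa [div_lt_iff₀' k0] at h) (toR hk' (ori_sol hf)))
  have ho : Or G (ori G f) := ori_or (q := q') (by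
    by_contra c
    have : q' = 0 := by omega
    subst this
    have : (0 : ℝ) < q / k := by positivity
    simp at h
    linarith) hf
  have b : ∀ u, (0 : ℤ) ≤ ⌊(k : ℝ) * ((((f u : ℕ) : ℤ) : ℝ) / k')⌋ ∧ ⌊(k : ℝ) * ((((f u : ℕ) : ℤ) : ℝ) / k')⌋ < k := by
    intro u
    refine ⟨Int.floor_nonneg.2 (by positivity), Int.floor_lt.2 ?_⟩
    have : (((f u : ℕ) : ℤ) : ℝ) / k' < 1 := (div_lt_one k1).2 (by exact_mod_cast (f u).2)
    push_cast at this ⊢
    nlinarith
  refine ⟨_, red_col ho hk hq s, fun u w e => ?_⟩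
  rcases ho u w e.1 with c | c
  · exact ori_sol hf u w c
  · exfalso
    have e2 := Fin.lt_def.1 e.2
    simp only [red, Int.emod_eq_of_lt (b _).1 (b _).2] at e2
    have s1 := (s _ _ c).1
    dsimp only at s1
    have := b u
    have := b w
    omega

lemma rlift {α β : Type} {r : α → α → Prop} {p : β → β → Prop} (f : α → β)
    (h : ∀ a b, r a b → p (f a) (f b)) {a b : α} (e : ReflTransGen r a b) : ReflTransGen p (f a) (f b) := by
  induction e with
  | refl => exact .refl
  | tail _ s ih => exact ih.tail (h _ _ s)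

theorem transfer [Fintype V] (G : SimpleGraph V) {e : ℝ} (he : Irrational e) : ∃ lo < e, ∃ hi > e,
    ∀ k q k' q' : ℕ, 0 < k → 0 < q → 0 < k' → 0 < q' → lo < (q : ℝ) / k → (q : ℝ) / k < q' / k' →
      (q' : ℝ) / k' < hi → (Mixing G k q → Mixing G k' q') ∧ ((∃ f, IsCol G k q f) → ∃ f, IsCol G k' q' f) := by
  obtain ⟨lo, h1, hi, h2, h3⟩ := gap (V := V) he
  refine ⟨lo, h1, hi, h2, fun k q k' q' hk hq hk' hq' a1 a2 a3 => ?_⟩
  have k1 : (0 : ℝ) < k' := by exact_mod_cast hk'
  have a4 : (q' : ℝ) < k' * hi := by rwa [div_lt_iff₀' k1] at a3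
  have cn : ∀ f : V → Fin k, IsCol G k q f → ∀ a b, SolZ (ori G f) k' q' a → SolZ (ori G f) k' q' b →
      ReflTransGen (Step G k' q') (red k' hk' a) (red k' hk' b) := by
    intro f hf a b ha hb
    obtain ⟨y, z, t⟩ := h3 _ _ (memA hk hf hf (fun _ => False) (by simp)) a1
    have ho := ori_or hq hf
    exact rlift (r := ZS (ori G f) k' q') (red k' hk') (fun c d s => ⟨red_col ho hk' hq' s.1,
      red_col ho hk' hq' s.2.1, s.2.2.imp fun v hv w hw => by simp [red, hv w hw]⟩) (conn (slack a4 t.1) ha hb)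
  refine ⟨fun hm f g hf hg => ?_, fun ⟨f, hf⟩ => ?_⟩
  · obtain ⟨f1, b1, b2⟩ := push hk hk' hq a2 hf
    obtain ⟨g1, c1, c2⟩ := push hk hk' hq a2 hg
    have key : ∀ g1, ReflTransGen (Step G k q) f1 g1 → IsCol G k q g1 → ∀ b, SolZ (ori G g1) k' q' b →
        ReflTransGen (Step G k' q') (red k' hk' fun u => (f u : ℕ)) (red k' hk' b) := by
      intro g1 r
      induction r with
      | refl => exact fun _ b hb => cn f1 b1 _ _ b2 hb
      | @tail g1 g2 _ s ih =>
        intro _ b hb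
        obtain ⟨s1, s2, v, hv⟩ := s
        obtain ⟨y, z, t⟩ := h3 _ _ (memA hk s1 s2 (· ≠ v) hv) a1
        have y1 := flo (slack a4 t.1)
        have z1 := flo (slack a4 t.2.1)
        refine ((ih s1 _ y1).tail ⟨red_col (ori_or hq s1) hk' hq' y1, red_col (ori_or hq s2) hk' hq' z1, v,
          fun w hw => ?_⟩).trans (cn g2 s2 _ _ z1 hb)
        simp [red, t.2.2 w hw]
    have := key g1 (hm _ _ b1 c1) c1 _ c2
    rwa [red_coe, red_coe] at this
  · obtain ⟨y, z, t⟩ := h3 _ _ (memA hk hf hf (fun _ => False) (by simp)) a1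
    exact ⟨_, red_col (ori_or hq hf) hk' hq' (flo (slack a4 t.1))⟩

end Pool.Agent.H.MP_05142a_co
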